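import Pool.Agent.H97.SHL.Targets

/-!
# The density is bounded (row AL4 of shl_modules)
-/

set_option autoImplicit false

namespace Pool.Agent.H51.SHL

open Finset Pool.Agent.H97.SHL

theorem pf_AL4 (hAL2 : T_AL2) : T_AL4 := by
  classical
  intro m q r H hH1 hH hr y
  have hH0 : (0 : ℝ) ≤ 2 * (H : ℝ) := by positivity
  have hf : fA q (∅ : Finset (Fin m)) y = 1 := by
    unfold fA
    rw [if_pos (by simp), card_empty]
    unfold W
    rw [range_zero, prod_empty]
  have h1 : ∀ M ∈ (univ : Finset (Finset (Fin m))).filter (fun M => M.card ≤ r),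
      |eA q ∅ M y| ≤ (2 * (H : ℝ)) ^ M.card := by
    intro M hM
    have hM' : M.card ≤ r := (mem_filter.1 hM).2
    have h := (hAL2 m q r H ∅ M hH1 hH hr (by rw [card_empty]; omega) y).1
    rwa [hf, one_mul] at h
  have h2 : ∑ M : Finset (Fin m), (2 * (H : ℝ)) ^ M.card = (1 + 2 * (H : ℝ)) ^ m := by
    have h := Fintype.sum_pow_mul_eq_add_pow (Fin m) (2 * (H : ℝ)) 1
    simp only [one_pow, mul_one, Fintype.card_fin] at h
    rw [h, add_comm]
  calc |DD q r y| ≤ ∑ M ∈ (univ : Finset (Finset (Fin m))).filter (fun M => M.card ≤ r),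
        |eA q ∅ M y| := by
        unfold DD
        exact abs_sum_le_sum_abs _ _
    _ ≤ ∑ M ∈ (univ : Finset (Finset (Fin m))).filter (fun M => M.card ≤ r),
        (2 * (H : ℝ)) ^ M.card := sum_le_sum h1
    _ ≤ ∑ M : Finset (Fin m), (2 * (H : ℝ)) ^ M.card :=
        sum_le_sum_of_subset_of_nonneg (filter_subset _ _) fun M _ _ => pow_nonneg hH0 _
    _ = (1 + 2 * (H : ℝ)) ^ m := h2

end Pool.Agent.H51.SHL
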